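import Pool.Agent.H840.MX.Stm

/-!
# The valuation `v_b` is divisorial
-/

set_option autoImplicit false

namespace Pool.Agent.H100.MX

open MvPolynomial Pool.Agent.T2H40.MI Pool.Agent.H840.MX

/-- a form of positive degree in the first two variables vanishes at `(0, 0, 1)` -/
theorem eval_zero {p : S} {d : ℕ} (hp : p.IsHomogeneous d) (hd : 1 ≤ d)
    (h : ∀ m ∈ p.support, m 2 = 0) : eval ![0, 0, 1] p = 0 := by
  rw [eval_eq']
  refine Finset.sum_eq_zero fun m hm => ?_
  have h1 := hom_deg hp hm
  have h2 := h m hm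
  rw [Fin.prod_univ_three]
  by_cases h0 : m 0 = 0
  · have h3 : m 1 ≠ 0 := by omega
    simp [h3]
  · simp [h0]

/-- a smooth cubic does not divide a polynomial in two of the variables -/
theorem ndvd {F : S} (hF : SmoothCubic F) (hF0 : F ≠ 0) {B : S} (hB : B ≠ 0)
    (h : ∀ m ∈ B.support, m 2 = 0) : ¬ F ∣ B := by
  rintro ⟨A, rfl⟩
  have hA : A ≠ 0 := right_ne_zero_of_mul hB
  have h1 : degreeOf 2 (F * A) = 0 := by
    apply Nat.le_zero.1
    rw [degreeOf_le_iff]
    intro m hm
    exact (h m hm).le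
  rw [degreeOf_mul_eq hF0 hA] at h1
  have h2 : ∀ m ∈ F.support, m 2 = 0 := by
    intro m hm
    have h3 : degreeOf 2 F ≤ 0 := by omega
    rw [degreeOf_le_iff] at h3
    exact Nat.le_zero.1 (h3 m hm)
  have h4 : eval ![0, 0, 1] F = 0 := eval_zero hF.hom (by norm_num) h2
  obtain ⟨i, hi⟩ := hF.smooth ![0, 0, 1] (fun h5 => by
    have := congrFun h5 2
    simp at this) h4
  apply hi
  refine eval_zero (d := 2) (hF.hom.pderiv (i := i)) (by norm_num) ?_
  intro m hm
  rw [mem_support_iff, coeff_pderiv] at hm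
  have h5 := h2 (m + Finsupp.single i 1) (mem_support_iff.2 (left_ne_zero_of_mul hm))
  rw [Finsupp.add_apply] at h5
  omega

/-- the exponent of the monomial `x ^ (4 i + 3 j) y ^ j` -/
noncomputable def Ex (m : Fin 3 →₀ ℕ) : Fin 3 →₀ ℕ :=
  Finsupp.single 0 (4 * m 0 + 3 * m 1) + Finsupp.single 1 (m 1)

theorem Ex0 (m : Fin 3 →₀ ℕ) : Ex m 0 = 4 * m 0 + 3 * m 1 := by
  simp [Ex]

theorem Ex1 (m : Fin 3 →₀ ℕ) : Ex m 1 = m 1 := by
  simp [Ex]

theorem Ex2 (m : Fin 3 →₀ ℕ) : Ex m 2 = 0 := by
  simp [Ex]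

/-- the summands of the polynomial `H (x ^ 4, x ^ 3 y, F)` -/
noncomputable def term (F H : S) (m : Fin 3 →₀ ℕ) : S := monomial (Ex m) (coeff m H) * F ^ m 2

theorem aeval_eq_sum (F H : S) :
    aeval ![(X 0 : S) ^ 4, X 0 ^ 3 * X 1, F] H = ∑ m ∈ H.support, term F H m := by
  conv_lhs => rw [H.as_sum]
  rw [map_sum]
  refine Finset.sum_congr rfl fun m _ => ?_
  rw [aeval_monomial, Finsupp.prod_fintype _ _ (fun _ => pow_zero _), Fin.prod_univ_three]
  unfold term Ex
  have h1 : (monomial (Finsupp.single 0 (4 * m 0 + 3 * m 1) + Finsupp.single 1 (m 1)) (coeff m H) : S) =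
      C (coeff m H) * X 0 ^ (4 * m 0 + 3 * m 1) * X 1 ^ m 1 := by
    rw [X_pow_eq_monomial, X_pow_eq_monomial, C_mul_monomial, monomial_mul, mul_one, mul_one]
  rw [h1]
  show C (coeff m H) * (((X 0 : S) ^ 4) ^ m 0 * (X 0 ^ 3 * X 1) ^ m 1 * F ^ m 2) = _
  ring

theorem term_hom {F H : S} (hF : F.IsHomogeneous 3) {D : ℕ} (hH : H.IsHomogeneous D)
    {m : Fin 3 →₀ ℕ} (hm : m ∈ H.support) : (term F H m).IsHomogeneous (4 * D - m 2) := by
  have h1 := hom_deg hH hm
  have h2 : (monomial (Ex m) (coeff m H) : S).IsHomogeneous (4 * m 0 + 4 * m 1) := by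
    refine isHomogeneous_monomial _ ?_
    rw [Finsupp.degree_eq_sum, Fin.sum_univ_three, Ex0, Ex1, Ex2]
    omega
  have h3 := h2.mul (hF.pow (m 2))
  have h4 : 4 * m 0 + 4 * m 1 + 3 * m 2 = 4 * D - m 2 := by omega
  rw [h4] at h3
  exact h3

/-- the homogeneous components of `H (x ^ 4, x ^ 3 y, F)` -/
theorem comp_eq {F H : S} (hF : F.IsHomogeneous 3) {D : ℕ} (hH : H.IsHomogeneous D) (k : ℕ) :
    homogeneousComponent k (∑ m ∈ H.support, term F H m) =
      ∑ m ∈ H.support.filter (fun m => k = 4 * D - m 2), term F H m := by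
  rw [map_sum, Finset.sum_filter]
  refine Finset.sum_congr rfl fun m hm => ?_
  exact homogeneousComponent_of_mem (term_hom hF hH hm)

theorem VB2 : S_VB2 := by
  intro F v hF hirr hv
  have hF0 : F ≠ 0 := hirr.ne_zero
  have hFu : ¬ IsUnit F := hirr.not_isUnit
  -- the values of `X 0`
  have hX0 : v (X 0) = 1 := by
    refine le_antisymm ?_ ?_
    · by_contra h1
      push Not at h1
      have h2 : ((2 : ℕ) : ℕ∞) ≤ v (X 0) := by
        have h3 := Order.add_one_le_of_lt h1
        have h4 : (1 : ℕ∞) + 1 = ((2 : ℕ) : ℕ∞) := by norm_num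
        rwa [h4] at h3
      have h5 := (hv 2 (X 0)).1 h2 1
      rw [homogeneousComponent_eq_self (isHomogeneous_X ℂ 0)] at h5
      refine ndvd hF hF0 (X_ne_zero (R := ℂ) (0 : Fin 3)) ?_ ((dvd_pow_self F (by norm_num)).trans h5)
      intro m hm
      rw [support_X, Finset.mem_singleton] at hm
      rw [hm]
      simp
    · have h1 := (hv 1 (X 0)).2 (fun k => ?_)
      · exact_mod_cast h1
      · rcases Nat.eq_zero_or_pos k with rfl | hk
        · rw [homogeneousComponent_of_mem (isHomogeneous_X ℂ 0), if_neg (by norm_num)]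
          exact dvd_zero _
        · have h2 : 1 - k = 0 := by omega
          rw [h2, pow_zero]
          exact one_dvd _
  refine ⟨?_, ⟨X 0, X_ne_zero _, by rw [hX0]; exact one_ne_zero⟩, ?_⟩
  · intro f hf htop
    obtain ⟨k, hk⟩ : ∃ k, homogeneousComponent k f ≠ 0 := by
      by_contra hno
      push Not at hno
      apply hf
      rw [← sum_homogeneousComponent f]
      exact Finset.sum_eq_zero fun k _ => hno k
    have h1 : FiniteMultiplicity F (homogeneousComponent k f) :=
      FiniteMultiplicity.of_not_isUnit hFu hk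
    obtain ⟨n, hn⟩ := h1
    have h2 := (hv (n + 1 + k) f).1 (by rw [htop]; exact le_top) k
    rw [Nat.add_sub_cancel] at h2
    exact hn h2
  · refine ⟨X 0 ^ 4, X 0 ^ 3 * X 1, F, pow_ne_zero _ (X_ne_zero _), ?_⟩
    intro D H hH hH0
    have hg : D • v ((X 0 : S) ^ 4) = ((4 * D : ℕ) : ℕ∞) := by
      rw [v.map_pow, hX0, nsmul_eq_mul, nsmul_eq_mul, mul_one]
      push_cast
      ring
    rw [hg, aeval_eq_sum]
    refine le_antisymm ?_ ?_
    · by_contra h1
      push Not at h1
      have h2 : ((4 * D + 1 : ℕ) : ℕ∞) ≤ v (∑ m ∈ H.support, term F H m) := by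
        have h3 := Order.add_one_le_of_lt h1
        push_cast at h3 ⊢
        exact h3
      obtain ⟨m₀, hm₀⟩ := support_nonempty.2 hH0
      have h4 := hom_deg hH hm₀
      have h5 := (hv _ _).1 h2 (4 * D - m₀ 2)
      rw [comp_eq hF.hom hH] at h5
      have h6 : 4 * D + 1 - (4 * D - m₀ 2) = m₀ 2 + 1 := by omega
      rw [h6] at h5
      have h7 : ∑ m ∈ H.support.filter (fun m => 4 * D - m₀ 2 = 4 * D - m 2), term F H m =
          F ^ m₀ 2 * ∑ m ∈ H.support.filter (fun m => 4 * D - m₀ 2 = 4 * D - m 2),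
            (monomial (Ex m) (coeff m H) : S) := by
        rw [Finset.mul_sum]
        refine Finset.sum_congr rfl fun m hm => ?_
        rw [Finset.mem_filter] at hm
        have h8 := hom_deg hH hm.1
        have h9 : m 2 = m₀ 2 := by omega
        unfold term
        rw [h9, mul_comm]
      rw [h7, pow_succ] at h5
      have h10 := (mul_dvd_mul_iff_left (pow_ne_zero (m₀ 2) hF0)).1 h5
      refine ndvd hF hF0 ?_ ?_ h10
      · intro h11
        have h12 := congrArg (coeff (Ex m₀)) h11
        rw [coeff_sum, coeff_zero, Finset.sum_eq_single m₀] at h12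
        · rw [coeff_monomial, if_pos rfl] at h12
          exact (mem_support_iff.1 hm₀) h12
        · intro m hm hne
          rw [coeff_monomial, if_neg]
          intro h13
          apply hne
          rw [Finset.mem_filter] at hm
          have h14 := hom_deg hH hm.1
          have e0 := DFunLike.congr_fun h13 0
          have e1 := DFunLike.congr_fun h13 1
          rw [Ex0, Ex0] at e0
          rw [Ex1, Ex1] at e1
          ext i
          fin_cases i
          · show m 0 = m₀ 0
            omega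
          · show m 1 = m₀ 1
            omega
          · show m 2 = m₀ 2
            omega
        · intro h13
          exact absurd (Finset.mem_filter.2 ⟨hm₀, (rfl : 4 * D - m₀ 2 = 4 * D - m₀ 2)⟩) h13
      · intro m hm
        have h11 := support_sum hm
        rw [Finset.mem_biUnion] at h11
        obtain ⟨m', -, h12⟩ := h11
        have h13 := support_monomial_subset h12
        rw [Finset.mem_singleton] at h13
        rw [h13, Ex2]
    · refine (hv _ _).2 fun k => ?_
      rw [comp_eq hF.hom hH]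
      refine Finset.dvd_sum fun m hm => ?_
      rw [Finset.mem_filter] at hm
      have h1 := hom_deg hH hm.1
      have h2 : 4 * D - k = m 2 := by omega
      rw [h2]
      exact Dvd.intro_left _ rfl

end Pool.Agent.H100.MX
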